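import Pool.Agent.helper90.DH.SpecI

/-!
# Project d2: (MP_5823cb_al), row d2:iINI: the initial state
-/

set_option autoImplicit false

open Filter Topology MeasureTheory
open scoped commutatorElement

namespace Pool.Agent.helper90.DH

open Pool.Agent.helper64.D2

theorem INI_d2one (x : ℝ) : d2 (ev (1 : DD)) x = 0 := by
  have h1 : ev (1 : DD) = fun x => x := funext fun x => ev_one x
  unfold d2
  rw [h1]
  have h2 : deriv (fun x : ℝ => x) = fun _ => 1 := by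
    funext x
    simp
  rw [h2]
  simp

theorem INI_d2zero (x : ℝ) : d2 (0 : ℝ → ℝ) x = 0 := by
  unfold d2
  have h2 : deriv (0 : ℝ → ℝ) = fun _ => 0 := by
    funext x
    exact deriv_const x 0
  rw [h2]
  simp

theorem INI_FLW (q : ℕ) (ε d L : ℝ) (hε : 0 ≤ ε) (hd : 0 ≤ d) (hL : 0 ≤ L) : FLW q (fun _ => (0 : ℝ → ℝ)) ε d L := by
  intro k _
  refine ⟨contDiff_const, fun x _ => rfl, fun x => ?_⟩
  have h1 : deriv (0 : ℝ → ℝ) x = 0 := deriv_const x 0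
  refine ⟨?_, ?_, ?_, fun x' => ?_⟩
  · rw [INI_d2zero, abs_zero]
    positivity
  · rw [h1, abs_zero]
    exact hd
  · change |(0 : ℝ)| ≤ d
    rw [abs_zero]
    exact hd
  · rw [INI_d2zero, INI_d2zero, sub_zero, abs_zero]
    positivity

theorem INI_IsQ (q : ℕ) : IsQ q (fun _ => (0 : ℝ → ℝ)) (fun _ => (1 : DD)) := by
  intro i _ x
  rw [ev_one]
  simp

theorem INI_IsR (q : ℕ) : IsR q (fun _ => (1 : DD)) (fun _ => (1 : DD)) (fun _ => (1 : DD)) := by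
  refine ⟨rfl, fun i _ => ?_⟩
  simp

theorem INI_Cm (i : ℕ) : Cm (fun _ => (1 : DD)) (fun _ => (1 : DD)) (fun _ => (1 : DD)) i = 1 := by
  unfold Cm
  simp

theorem INI_Lp (g : DD) (L L' : ℝ) (h : L ≤ L') (hg : Lp g L) : Lp g L' := fun x y =>
  (hg x y).trans (mul_le_mul_of_nonneg_right h (abs_nonneg _))

theorem INI (hDRF : DRF_stmt) (hSP0 : SP0_stmt) (hSPH : SPH_stmt) (hDGS : DGS_stmt) (hRST : RST_stmt) : INI_stmt := by
  intro β hβ
  obtain ⟨C, hC⟩ := hDGS β hβ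
  refine ⟨C + 1, ?_⟩
  intro a hok hB
  obtain ⟨hker, hKB, hth, hδ, hδ1, hB0, hA, hw0, hac, hNB, hCδ⟩ := hok
  obtain ⟨s0, hs0⟩ : ∃ s0, s0 = a.ρ ^ 2 := ⟨_, rfl⟩
  obtain ⟨q, hq⟩ : ∃ q, q = a.ρ ^ 4 := ⟨_, rfl⟩
  obtain ⟨hq1, hq2, hq3, hq4⟩ := hNB
  rw [← hq] at hq1 hq2 hq3
  rw [← hs0] at hq3 hq4
  have hρ : 1 ≤ a.ρ := by
    rcases Nat.eq_zero_or_pos a.ρ with h | h
    · rw [hq, h] at hq1
      norm_num at hq1
    · exact h
  have hρr : (0 : ℝ) < a.ρ := Nat.cast_pos.2 hρ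
  have hNBC : ∀ C' : ℕ, C' ≤ C + 1 + a.ac + 1 → NB C' a.w0 q s0 := by
    intro C' hC'
    refine ⟨hq1, hC'.trans hq2, ?_, ?_⟩
    · refine le_trans ?_ hq3
      gcongr
    · refine le_trans ?_ hq4
      gcongr
  have hsb : 1000 * (3 * a.w0 * 2 ^ a.w0 + 10 * a.w0 + 1) ≤ s0 := (hNBC 1 (by omega)).2.2.2
  have hs1000 : 1000 ≤ s0 := by
    refine le_trans ?_ hsb
    omega
  have hw0s : 10000 * a.w0 ≤ s0 := by
    refine le_trans ?_ hsb
    have : 0 ≤ 3 * a.w0 * 2 ^ a.w0 := Nat.zero_le _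
    omega
  obtain ⟨hD1, hD2, hD3, hD4, hD5⟩ := hDRF a.w0 s0 hsb
  have hε : 0 ≤ a.A * a.B0 := by positivity
  have hCε : (C : ℝ) * (a.A * a.B0 + 1 / a.ρ) ≤ a.δ := by
    refine le_trans ?_ hCδ
    push_cast
    gcongr
    linarith
  have hamp0 : ∀ φ, amp a.w0 s0 0 φ = s0 - a.w0 := fun φ => rfl
  have hamp1 : ∀ φ, amp a.w0 s0 1 φ = sj s0 1 + 3 * a.w0 * φ := fun φ => rfl
  have hsj0 : sj s0 0 = s0 := rfl
  have hsj1 : sj s0 1 = s0 + s0 / 4 := rfl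
  -- batch 0
  have hNBd := hNBC C (by omega)
  rw [hq, hs0] at hNBd
  have hDG := hC a.KB a.th a.δ a.m0 a.w0 a.ρ hB hNBd hδ1
  rw [← hq, ← hs0] at hDG
  obtain ⟨c0, G1, R1, hR1, hc0, hB0', hG1⟩ := hDG 0 (fun _ => 0) (fun _ => 1) (fun _ => 1) (fun _ => 1) (a.A * a.B0) 1 0 1
    (INI_IsQ q) (INI_IsR q) (INI_FLW q _ _ _ hε (by positivity) (by norm_num)) hε le_rfl le_rfl le_rfl hCε (by positivity)
    (by
      rw [hamp0, hsj0]
      have h1 : ((1 : ℝ) + 1) * 2 ^ (s0 / 16 + s0 / 100) = 2 ^ (s0 / 16 + s0 / 100 + 1) := by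
        rw [pow_succ]
        ring
      rw [h1]
      exact pow_le_pow_right₀ (by norm_num) (by omega))
    (fun i _ => ⟨fun x => by rw [INI_d2one, abs_zero], fun x y => by
      rw [INI_d2one, INI_d2one, sub_zero, abs_zero]
      positivity⟩)
    (by
      have := hSP0 a.th a.w0 a.ρ (Cm (fun _ => 1) (fun _ => 1) (fun _ => 1)) hρ hth.le
      rwa [← hs0, ← hq] at this)
  -- batch 1
  have hgam0 : gam s0 0 = 1 / 2 ^ (s0 / 16) := by
    unfold gam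
    rw [Finset.sum_range_one, hsj0]
  have hgam1 : gam s0 1 = 1 / 2 ^ (s0 / 16) + 1 / 2 ^ (sj s0 1 / 16) := by
    unfold gam
    rw [Finset.sum_range_succ, Finset.sum_range_one, hsj0]
  have hqr : (1 : ℝ) ≤ q := by exact_mod_cast hq1
  have hqc : (q : ℝ) = (a.ρ : ℝ) ^ 4 := by
    rw [hq]
    push_cast
    rfl
  have hCq : ((C : ℝ) + 1) * q ^ 2 ≤ 2 ^ (s0 / 1000) := by
    have h1 : (C + 1) * q ^ 2 ≤ 2 ^ (s0 / 1000) := by
      refine le_trans ?_ hq3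
      calc (C + 1) * q ^ 2 ≤ (C + 1 + a.ac + 1) * q ^ 10 := by
            gcongr
            · omega
            · norm_num
        _ ≤ (C + 1 + a.ac + 1) * q ^ 10 * 2 ^ (10 * a.w0) := Nat.le_mul_of_pos_right _ (by positivity)
    exact_mod_cast h1
  have hC1 : (1 : ℝ) ≤ ((C : ℝ) + 1) * q ^ 2 := by
    have h1 : (1 : ℝ) ≤ (C : ℝ) + 1 := by
      have : (0 : ℝ) ≤ C := Nat.cast_nonneg C
      linarith
    have h2 : (1 : ℝ) ≤ (q : ℝ) ^ 2 := one_le_pow₀ hqr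
    nlinarith
  have hDG2 := hDG 1 (fun _ => 0) G1 (fun _ => 1) R1 (a.A * a.B0) 1 (1 / 2 ^ (s0 / 16)) (2 * (((C : ℝ) + 1) * q ^ 2))
    (INI_IsQ q) hR1 (INI_FLW q _ _ _ hε (by positivity) (by norm_num)) hε (by positivity) le_rfl (by linarith) hCε
    (by
      gcongr
      norm_num)
    (by
      rw [hamp1, mul_zero, add_zero]
      have h1 : 2 * (((C : ℝ) + 1) * q ^ 2) + 1 ≤ 2 ^ (2 + s0 / 1000) := by
        rw [pow_add]
        linarith
      calc (2 * (((C : ℝ) + 1) * q ^ 2) + 1) * 2 ^ (sj s0 1 / 16 + s0 / 100) ≤ 2 ^ (2 + s0 / 1000) * 2 ^ (sj s0 1 / 16 + s0 / 100) := by gcongr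
        _ = 2 ^ (2 + s0 / 1000 + (sj s0 1 / 16 + s0 / 100)) := by rw [← pow_add]
        _ ≤ 2 ^ sj s0 1 := pow_le_pow_right₀ (by norm_num) (by rw [hsj1]; omega))
    (fun i hi => by
      obtain ⟨h1, h2, -, -⟩ := hG1 i hi
      rw [zero_add, hsj0] at h1
      rw [← hqc] at h2
      refine ⟨h1, INI_Lp _ _ _ ?_ h2⟩
      have h3 : (0 : ℝ) ≤ (q : ℝ) ^ 2 := by positivity
      nlinarith)
    (by
      have h1 := hSPH a.th a.w0 a.ρ 0 (fun _ => c0) (Cm G1 (fun _ => 1) R1)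
      rw [← hs0, ← hq] at h1
      refine h1 (hNBC 1 (by omega)) hth.le ?_ ?_
      · intro t ht k hk
        have ht0 : t = 0 := by omega
        subst ht0
        have h2 := hB0'.2.1 k
        rw [← hs0, ← hq] at h2
        exact h2 hk
      · intro t ht i hi x
        rw [hc0 i hi, sub_self, abs_zero]
        positivity)
  obtain ⟨c1, G2, R2, hR2, hc1, hB1', hG2⟩ := hDG2
  have hdrf00 : ∀ φ, drf a.w0 s0 0 0 φ = 0 := fun φ => by
    unfold drf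
    simp
  have hdrf11 : ∀ φ, drf a.w0 s0 1 1 φ = 0 := fun φ => by
    unfold drf
    simp
  have hdrf01 : ∀ φ, drf a.w0 s0 0 1 φ = (7 / 2) / 2 ^ amp a.w0 s0 1 φ := fun φ => by
    unfold drf
    have : Finset.Ioc 0 1 = {1} := rfl
    rw [this, Finset.sum_singleton]
  have hdisp0 : ∀ i < q, ∀ x, |ev (c0 i) x - x| ≤ (13 / 4) / 2 ^ (s0 - a.w0) := by
    intro i hi x
    have h1 := (hG1 i hi).2.2.2 x
    rwa [INI_Cm, ev_one, hamp0] at h1
  have hdisp1 : ∀ i < q, ∀ x, |ev (c1 i) x - ev (c0 i) x| ≤ (13 / 4) / 2 ^ amp a.w0 s0 1 (i % 2 ^ a.w0) := by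
    intro i hi x
    have h1 := (hG2 i hi).2.2.2 x
    rwa [← hc0 i hi] at h1
  have hlt : ∀ n : ℕ, (13 / 4 : ℝ) / 2 ^ n ≤ (7 / 2) / 2 ^ n := fun n =>
    div_le_div_of_nonneg_right (by norm_num) (by positivity)
  refine ⟨⟨fun t => if t = 0 then c0 else c1, fun _ _ => 1, ⟨fun _ => ∅, fun _ => ∅, fun _ _ => ∅⟩, fun _ => 0, fun _ => 1, G2, R2⟩, ?_, ?_, ?_, ?_, ?_⟩
  · change IsQ (a.ρ ^ 4) (fun _ => 0) (fun _ => 1) ∧ IsR (a.ρ ^ 4) G2 (fun _ => 1) R2 ∧ (∀ i < a.ρ ^ 4, c1 i = Cm G2 (fun _ => 1) R2 i) ∧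
      HIS a.KB a.th a.δ a.m0 a.w0 a.ρ 1 (fun t => if t = 0 then c0 else c1) ∧ FLa a 0 (fun _ => 0) ∧ GLa a 1 0 G2
    unfold FLa GLa HIS
    rw [← hs0, ← hq]
    refine ⟨INI_IsQ q, hR2, hc1, ?_, INI_FLW q _ _ _ hε (by positivity) (by positivity), ?_⟩
    · intro t ht
      have ht2 : t = 0 ∨ t = 1 := by omega
      rcases ht2 with rfl | rfl
      · refine ⟨hB0', fun i hi => ⟨(hG1 i hi).2.2.1, fun x => ?_, ?_⟩⟩
        · rw [hdrf00, add_zero]
          exact (hdisp0 i hi x).trans (hlt _)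
        · intro t' h0 h1 x
          have ht3 : t' = 0 ∨ t' = 1 := by omega
          rcases ht3 with rfl | rfl
          · rw [hdrf00, sub_self, abs_zero]
          · rw [hdrf01]
            exact (hdisp1 i hi x).trans (hlt _)
      · refine ⟨hB1', fun i hi => ⟨(hG2 i hi).2.2.1, fun x => ?_, ?_⟩⟩
        · rw [hdrf01]
          have h1 := (hdisp0 i hi x).trans (hlt _)
          have h2 := (hdisp1 i hi x).trans (hlt _)
          have h3 : |ev (c1 i) x - x| ≤ |ev (c1 i) x - ev (c0 i) x| + |ev (c0 i) x - x| := abs_sub_le _ _ _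
          change |ev (c1 i) x - x| ≤ _
          linarith
        · intro t' h0 h1 x
          have ht3 : t' = 1 := by omega
          subst ht3
          rw [hdrf11, sub_self, abs_zero]
    · intro i hi
      obtain ⟨h1, h2, -, -⟩ := hG2 i hi
      rw [← hqc] at h2
      refine ⟨by rw [hgam1]; exact h1, INI_Lp _ _ _ ?_ h2⟩
      rw [hsj0]
      have h4 : (C : ℝ) * q ^ 2 ≤ ((C : ℝ) + 1) * q ^ 2 := by gcongr; linarith
      have h5 : 0 ≤ (C : ℝ) * q ^ 2 := by positivity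
      calc (C : ℝ) * q ^ 2 * (2 * (((C : ℝ) + 1) * q ^ 2) + 1) ≤ 2 ^ (s0 / 1000) * (2 ^ (2 + s0 / 1000)) := by
            have h1 : 2 * (((C : ℝ) + 1) * q ^ 2) + 1 ≤ 2 ^ (2 + s0 / 1000) := by
              rw [pow_add]
              linarith
            have h6 := h4.trans hCq
            gcongr
        _ = 2 ^ (s0 / 1000 + (2 + s0 / 1000)) := by rw [← pow_add]
        _ ≤ 2 ^ (s0 + s0 / 6) := pow_le_pow_right₀ (by norm_num) (by omega)
  · intro i hi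
    change (0 : ℝ → ℝ) = YF a (fun _ _ => 1) ⟨fun _ => ∅, fun _ => ∅, fun _ _ => ∅⟩ 0 i
    unfold YF
    rw [if_pos rfl]
  · exact hRST (a.ρ ^ 4) (a.ρ ^ 2) a.w0 a.ac (fun _ _ => 1) a.y hac
  · intro j' hj'
    exact absurd hj' (Nat.not_lt_zero _)
  · intro h
    exact absurd h (lt_irrefl 0)

end Pool.Agent.helper90.DH
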